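import Pool.Agent.helper40.SU.SpecA

set_option autoImplicit false

open Finset

namespace Pool.Agent.SU

lemma DLS_jac_abs (a : ℤ) (b : ℕ) : |jacobiSym a b| ≤ 1 := by
  rcases jacobiSym.trichotomy a b with h | h | h <;> rw [h] <;> norm_num

lemma DLS_Df_mod (m r x y x' y' : ℕ) (h1 : x ≡ x' [MOD r]) (h2 : y ≡ y' [MOD r]) :
    Df m x y ≡ Df m x' y' [MOD r] := by
  unfold Df
  refine Nat.ModEq.add ?_ ?_
  · exact Nat.ModEq.mul_left _ (h1.pow 4)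
  · refine Nat.ModEq.pow 2 ?_
    refine Nat.ModEq.mul h2 ?_
    exact Nat.ModEq.add (Nat.ModEq.mul_left _ h1) (Nat.ModEq.mul_left _ h2)

lemma DLS_jac_mod (m r g x y x' y' : ℕ) (hg : g ∣ r) (h1 : x ≡ x' [MOD r]) (h2 : y ≡ y' [MOD r]) :
    jacobiSym (Df m x y) g = jacobiSym (Df m x' y') g := by
  apply jacobiSym.mod_left'
  have h3 : Df m x y ≡ Df m x' y' [MOD g] := (DLS_Df_mod m r x y x' y' h1 h2).of_dvd hg
  have h4 : Df m x y % g = Df m x' y' % g := h3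
  exact_mod_cast congrArg (fun z : ℕ => (z : ℤ)) h4

lemma DLS_ee_symm (g g' : ℕ) : ee g g' = ee g' g := by
  unfold ee
  rw [Nat.gcd_comm g g', mul_comm]

/-- the bound for one pair -/
lemma DLS_pair (hFUL : FUL_stmt) (hPER : PER_stmt) {Z m q u₀ k₀ : ℕ} (hZ : 7 ≤ Z) (hD : Dat Z m q u₀ k₀)
    (K G : ℕ) (hG : 1 ≤ G) (hGK : G ^ 4 ≤ K) (g g' : ℕ) (hg : g ∈ Ioc G (2 * G)) (hg' : g' ∈ Ioc G (2 * G))
    (hs : Squarefree g) (hs' : Squarefree g') (hc : g.Coprime (2 * q)) (hc' : g'.Coprime (2 * q)) :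
    |((∑ i ∈ Ico K (2 * K), ∑ j ∈ Ico K (2 * K),
      jacobiSym (Df m (u₀ + 64 * q * i) (k₀ + 64 * q * j)) g * jacobiSym (Df m (u₀ + 64 * q * i) (k₀ + 64 * q * j)) g' : ℤ) : ℝ)| ≤
      (K : ℝ) ^ 2 * ((2 : ℝ) ^ (om (ee g g')) / √((ee g g' : ℕ) : ℝ) + 8 / (G : ℝ) ^ 2) := by
  rw [mem_Ioc] at hg hg'
  have hd : 0 < g.gcd g' := Nat.gcd_pos_of_pos_left _ (by omega)
  have hda : g.gcd g' * (g / g.gcd g') = g := Nat.mul_div_cancel' (Nat.gcd_dvd_left _ _)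
  have hdb : g.gcd g' * (g' / g.gcd g') = g' := Nat.mul_div_cancel' (Nat.gcd_dvd_right _ _)
  have hgl : g.gcd g' * g.lcm g' = g * g' := Nat.gcd_mul_lcm g g'
  have hlc : (g.lcm g').Coprime (2 * q) :=
    Nat.Coprime.coprime_dvd_left (Nat.lcm_dvd_mul g g') (Nat.Coprime.mul_left hc hc')
  have hlpos : 1 ≤ g.lcm g' := Nat.lcm_pos (by omega) (by omega)
  have hP := hPER q (g.lcm g') K u₀ k₀ (fun x y => jacobiSym (Df m x y) g * jacobiSym (Df m x y) g') hlpos hlc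
    (fun x y => by
      rw [abs_mul]
      exact mul_le_one₀ (DLS_jac_abs _ _) (abs_nonneg _) (DLS_jac_abs _ _))
    (fun x y x' y' h1 h2 => by
      show jacobiSym (Df m x y) g * jacobiSym (Df m x y) g' = jacobiSym (Df m x' y') g * jacobiSym (Df m x' y') g'
      rw [DLS_jac_mod m _ g x y x' y' (Nat.dvd_lcm_left g g') h1 h2,
        DLS_jac_mod m _ g' x y x' y' (Nat.dvd_lcm_right g g') h1 h2])
  have hF := hFUL Z m q u₀ k₀ hZ hD g g' hs hs' hc hc'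
  refine le_trans hP ?_
  have hee : ee g g' = (g / g.gcd g') * (g' / g.gcd g') := rfl
  set d := g.gcd g' with hdd
  set a := g / d with ha
  set b := g' / d with hb
  set e := ee g g' with hedef
  have ha0 : 0 < a := by
    rcases Nat.eq_zero_or_pos a with h | h
    · rw [h] at hda; omega
    · exact h
  have hb0 : 0 < b := by
    rcases Nat.eq_zero_or_pos b with h | h
    · rw [h] at hdb; omega
    · exact h
  have he0 : 0 < e := by rw [hee]; positivity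
  have hL : g.lcm g' = d * e := by
    have h1 : d * g.lcm g' = d * (d * e) := by
      rw [hgl, hee]
      calc g * g' = (d * a) * (d * b) := by rw [hda, hdb]
        _ = d * (d * (a * b)) := by ring
    exact Nat.eq_of_mul_eq_mul_left hd h1
  have hL4 : g.lcm g' ≤ 4 * G ^ 2 := by
    have h1 : g.lcm g' ≤ g * g' := Nat.le_of_dvd (Nat.mul_pos (by omega) (by omega)) (Nat.lcm_dvd_mul g g')
    calc g.lcm g' ≤ g * g' := h1
      _ ≤ (2 * G) * (2 * G) := Nat.mul_le_mul hg.2 hg'.2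
      _ = 4 * G ^ 2 := by ring
  have hG0 : (0 : ℝ) < G := by exact_mod_cast hG
  have hd0 : (0 : ℝ) < d := by exact_mod_cast hd
  have he0' : (0 : ℝ) < e := by exact_mod_cast he0
  have hLR : ((g.lcm g' : ℕ) : ℝ) = d * e := by rw [hL]; push_cast; ring
  have h1 : ((K : ℝ) / ((g.lcm g' : ℕ) : ℝ)) ^ 2 *
      |((∑ x ∈ range (g.lcm g'), ∑ y ∈ range (g.lcm g'), jacobiSym (Df m x y) g * jacobiSym (Df m x y) g' : ℤ) : ℝ)| ≤
      (K : ℝ) ^ 2 * ((2 : ℝ) ^ (om e) / √(e : ℝ)) := by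
    refine le_trans (mul_le_mul_of_nonneg_left hF (by positivity)) ?_
    rw [hLR]
    have hse : √(e : ℝ) * √(e : ℝ) = e := Real.mul_self_sqrt he0'.le
    have hse0 : 0 < √(e : ℝ) := Real.sqrt_pos.mpr he0'
    apply le_of_eq
    have h2 : ((K : ℝ) / (d * e)) ^ 2 * (2 ^ (om e) * (e * √(e : ℝ)) * (d : ℝ) ^ 2) =
        (K : ℝ) ^ 2 * 2 ^ (om e) * (√(e : ℝ) / e) := by
      field_simp
    have h3 : √(e : ℝ) / e = 1 / √(e : ℝ) := by
      rw [div_eq_div_iff he0'.ne' hse0.ne']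
      linarith
    rw [h2, h3]
    ring
  have h2 : 2 * (K : ℝ) * ((g.lcm g' : ℕ) : ℝ) ≤ (K : ℝ) ^ 2 * (8 / (G : ℝ) ^ 2) := by
    have h3 : ((g.lcm g' : ℕ) : ℝ) ≤ 4 * (G : ℝ) ^ 2 := by exact_mod_cast hL4
    have h4 : (G : ℝ) ^ 4 ≤ K := by exact_mod_cast hGK
    have hK0 : (0 : ℝ) ≤ K := by positivity
    have h5 : 4 * (G : ℝ) ^ 2 ≤ K * (4 / (G : ℝ) ^ 2) := by
      rw [mul_div_assoc', le_div_iff₀ (by positivity)]
      nlinarith
    calc 2 * (K : ℝ) * ((g.lcm g' : ℕ) : ℝ) ≤ 2 * (K : ℝ) * (K * (4 / (G : ℝ) ^ 2)) :=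
          mul_le_mul_of_nonneg_left (le_trans h3 h5) (by positivity)
      _ = (K : ℝ) ^ 2 * (8 / (G : ℝ) ^ 2) := by ring
  rw [mul_add]
  exact add_le_add h1 h2

/-- quadratic forms with a symmetric majorant -/
lemma DLS_quad (B : Finset ℕ) (b : ℕ → ℝ) (M μ : ℕ → ℕ → ℝ) (T : ℝ)
    (hM : ∀ g ∈ B, ∀ g' ∈ B, |M g g'| ≤ μ g g') (hsym : ∀ g g', μ g g' = μ g' g)
    (hT : ∀ g ∈ B, ∑ g' ∈ B, μ g g' ≤ T) :
    ∑ g ∈ B, ∑ g' ∈ B, b g * b g' * M g g' ≤ T * ∑ g ∈ B, b g ^ 2 := by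
  have h1 : ∑ g ∈ B, ∑ g' ∈ B, b g * b g' * M g g' ≤
      ∑ g ∈ B, ∑ g' ∈ B, (b g ^ 2 * μ g g' / 2 + b g' ^ 2 * μ g g' / 2) := by
    refine Finset.sum_le_sum fun g hg => Finset.sum_le_sum fun g' hg' => ?_
    have h2 := hM g hg g' hg'
    have h3 : |b g * b g'| ≤ (b g ^ 2 + b g' ^ 2) / 2 := by
      rw [abs_le]
      constructor
      · nlinarith [sq_nonneg (b g + b g')]
      · nlinarith [sq_nonneg (b g - b g')]
    calc b g * b g' * M g g' ≤ |b g * b g' * M g g'| := le_abs_self _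
      _ = |b g * b g'| * |M g g'| := abs_mul _ _
      _ ≤ ((b g ^ 2 + b g' ^ 2) / 2) * μ g g' := mul_le_mul h3 h2 (abs_nonneg _) (by positivity)
      _ = _ := by ring
  refine le_trans h1 ?_
  have h4 : ∑ g ∈ B, ∑ g' ∈ B, (b g ^ 2 * μ g g' / 2 + b g' ^ 2 * μ g g' / 2) =
      ∑ g ∈ B, b g ^ 2 * ∑ g' ∈ B, μ g g' := by
    have e1 : ∑ g ∈ B, ∑ g' ∈ B, b g' ^ 2 * μ g g' / 2 = ∑ g ∈ B, ∑ g' ∈ B, b g ^ 2 * μ g g' / 2 := by
      rw [Finset.sum_comm]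
      refine Finset.sum_congr rfl fun g _ => Finset.sum_congr rfl fun g' _ => ?_
      rw [hsym g' g]
    simp only [Finset.sum_add_distrib]
    rw [e1, ← Finset.sum_add_distrib]
    refine Finset.sum_congr rfl fun g _ => ?_
    rw [← Finset.sum_add_distrib, Finset.mul_sum]
    refine Finset.sum_congr rfl fun g' _ => ?_
    ring
  rw [h4, Finset.mul_sum]
  refine Finset.sum_le_sum fun g hg => ?_
  rw [mul_comm T]
  exact mul_le_mul_of_nonneg_left (hT g hg) (by positivity)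

theorem DLS (hFUL : FUL_stmt) (hPER : PER_stmt) (hGMR : GMR_stmt) (hDUA : DUA_stmt) : DLS_stmt := by
  obtain ⟨Z₁, hZ₁⟩ := hGMR
  refine ⟨max 7 Z₁, ?_⟩
  intro Z hZ m q u₀ k₀ hD K G hG hGK S hS
  have hZ7 : 7 ≤ Z := le_trans (le_max_left _ _) hZ
  have hZZ : Z₁ ≤ Z := le_trans (le_max_right _ _) hZ
  have hgm := hZ₁ q G (fun p hp hpZ => hD.small p hp (le_trans hpZ hZZ)) hG
  set B := (Ioc G (2 * G)).filter (fun g => Squarefree g ∧ g.Coprime (2 * q)) with hB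
  have hmain := hDUA S B (fun D g => (jacobiSym D g : ℝ)) (40 * (K : ℝ) ^ 2 * (G : ℝ) ^ (1 / 10 : ℝ)) (by positivity) ?_
  · exact hmain
  intro b
  -- from S to the box
  have h1 : ∑ D ∈ S, (∑ g ∈ B, b g * (jacobiSym D g : ℝ)) ^ 2 ≤
      ∑ x ∈ Ico K (2 * K) ×ˢ Ico K (2 * K),
        (∑ g ∈ B, b g * (jacobiSym (Df m (u₀ + 64 * q * x.1) (k₀ + 64 * q * x.2)) g : ℝ)) ^ 2 := by
    have e1 : ∑ D ∈ S, (∑ g ∈ B, b g * (jacobiSym D g : ℝ)) ^ 2 ≤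
        ∑ D ∈ (Bx q u₀ k₀ K).image (fun x => Df m x.1 x.2), (∑ g ∈ B, b g * (jacobiSym D g : ℝ)) ^ 2 :=
      Finset.sum_le_sum_of_subset_of_nonneg hS (fun _ _ _ => sq_nonneg _)
    refine le_trans e1 ?_
    have e2 : (Bx q u₀ k₀ K).image (fun x => Df m x.1 x.2) =
        (Ico K (2 * K) ×ˢ Ico K (2 * K)).image (fun x => Df m (u₀ + 64 * q * x.1) (k₀ + 64 * q * x.2)) := by
      unfold Bx
      rw [Finset.image_image]
      rfl
    rw [e2]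
    exact Finset.sum_image_le_of_nonneg (fun _ _ => sq_nonneg _)
  refine le_trans h1 ?_
  set M : ℕ → ℕ → ℝ := fun g g' => ((∑ i ∈ Ico K (2 * K), ∑ j ∈ Ico K (2 * K),
      jacobiSym (Df m (u₀ + 64 * q * i) (k₀ + 64 * q * j)) g * jacobiSym (Df m (u₀ + 64 * q * i) (k₀ + 64 * q * j)) g' : ℤ) : ℝ) with hM
  have h2 : ∑ x ∈ Ico K (2 * K) ×ˢ Ico K (2 * K),
        (∑ g ∈ B, b g * (jacobiSym (Df m (u₀ + 64 * q * x.1) (k₀ + 64 * q * x.2)) g : ℝ)) ^ 2 =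
      ∑ g ∈ B, ∑ g' ∈ B, b g * b g' * M g g' := by
    have e1 : ∀ x ∈ Ico K (2 * K) ×ˢ Ico K (2 * K),
        (∑ g ∈ B, b g * (jacobiSym (Df m (u₀ + 64 * q * x.1) (k₀ + 64 * q * x.2)) g : ℝ)) ^ 2 =
        ∑ g ∈ B, ∑ g' ∈ B, b g * b g' * ((jacobiSym (Df m (u₀ + 64 * q * x.1) (k₀ + 64 * q * x.2)) g : ℝ) *
          (jacobiSym (Df m (u₀ + 64 * q * x.1) (k₀ + 64 * q * x.2)) g' : ℝ)) := by
      intro x _
      rw [sq, Finset.sum_mul_sum]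
      refine Finset.sum_congr rfl fun g _ => Finset.sum_congr rfl fun g' _ => ?_
      ring
    rw [Finset.sum_congr rfl e1, Finset.sum_comm]
    refine Finset.sum_congr rfl fun g _ => ?_
    rw [Finset.sum_comm]
    refine Finset.sum_congr rfl fun g' _ => ?_
    rw [← Finset.mul_sum]
    congr 1
    rw [hM]
    rw [Finset.sum_product]
    push_cast
    rfl
  rw [h2]
  have h3 := DLS_quad B b M (fun g g' => (K : ℝ) ^ 2 * ((2 : ℝ) ^ (om (ee g g')) / √((ee g g' : ℕ) : ℝ) + 8 / (G : ℝ) ^ 2))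
    (40 * (K : ℝ) ^ 2 * (G : ℝ) ^ (1 / 10 : ℝ)) ?_ ?_ ?_
  · exact h3
  · intro g hg g' hg'
    rw [hB, mem_filter] at hg hg'
    exact DLS_pair hFUL hPER hZ7 hD K G hG hGK g g' hg.1 hg'.1 hg.2.1 hg'.2.1 hg.2.2 hg'.2.2
  · intro g g'
    simp only [DLS_ee_symm g g']
  · intro g hg
    rw [hB, mem_filter] at hg
    have h4 := hgm g hg.1 hg.2.1 hg.2.2
    rw [← Finset.mul_sum]
    calc (K : ℝ) ^ 2 * ∑ g' ∈ B, ((2 : ℝ) ^ (om (ee g g')) / √((ee g g' : ℕ) : ℝ) + 8 / (G : ℝ) ^ 2) ≤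
        (K : ℝ) ^ 2 * (40 * (G : ℝ) ^ (1 / 10 : ℝ)) := mul_le_mul_of_nonneg_left h4 (by positivity)
      _ = _ := by ring

end Pool.Agent.SU
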