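import Pool.Agent.helper40.SU.SpecA

set_option autoImplicit false

open Finset

namespace Pool.Agent.SU

lemma GMR_om_le (n : ℕ) : om n ≤ ArithmeticFunction.cardFactors n := by
  unfold om
  rw [ArithmeticFunction.cardFactors_apply]
  have : n.primeFactors = n.primeFactorsList.toFinset := rfl
  rw [this]
  exact List.toFinset_card_le _

lemma GMR_mult (G d : ℕ) (hd : 1 ≤ d) (hdG : d ≤ 2 * G) :
    (((Ioc G (2 * G)).filter (fun x => d ∣ x)).card : ℝ) ≤ 3 * G / d := by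
  have h1 : ((Ioc 0 (2 * G)).filter (fun x => d ∣ x)).card =
      ((Ioc 0 G).filter (fun x => d ∣ x)).card + ((Ioc G (2 * G)).filter (fun x => d ∣ x)).card := by
    rw [← Finset.card_union_of_disjoint]
    · congr 1
      ext x
      simp only [mem_union, mem_filter, mem_Ioc]
      constructor
      · rintro ⟨⟨h1, h2⟩, h3⟩
        by_cases h : x ≤ G
        · exact Or.inl ⟨⟨h1, h⟩, h3⟩
        · exact Or.inr ⟨⟨by omega, h2⟩, h3⟩
      · rintro (⟨⟨h1, h2⟩, h3⟩ | ⟨⟨h1, h2⟩, h3⟩)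
        · exact ⟨⟨h1, by omega⟩, h3⟩
        · exact ⟨⟨by omega, h2⟩, h3⟩
    · rw [Finset.disjoint_left]
      intro x hx hx'
      simp only [mem_filter, mem_Ioc] at hx hx'
      omega
  rw [Nat.Ioc_filter_dvd_card_eq_div, Nat.Ioc_filter_dvd_card_eq_div] at h1
  have hd0 : (0 : ℝ) < d := by exact_mod_cast hd
  have h2 : ((2 * G / d : ℕ) : ℝ) ≤ 2 * G / d := by
    have := @Nat.cast_div_le ℝ _ _ _ (2 * G) d
    push_cast at this
    exact this
  have h3 : (G : ℝ) / d < ((G / d : ℕ) : ℝ) + 1 := by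
    rw [div_lt_iff₀ hd0]
    have := Nat.lt_div_mul_add (a := G) (b := d) (by omega)
    have h4 : ((G : ℕ) : ℝ) < ((G / d * d + d : ℕ) : ℝ) := by exact_mod_cast this
    push_cast at h4
    nlinarith
  have h4 : (1 : ℝ) ≤ 2 * G / d := by
    rw [le_div_iff₀ hd0]
    have : (d : ℝ) ≤ ((2 * G : ℕ) : ℝ) := by exact_mod_cast hdG
    push_cast at this
    linarith
  have h5 : ((2 * G / d : ℕ) : ℝ) = ((G / d : ℕ) : ℝ) + (((Ioc G (2 * G)).filter (fun x => d ∣ x)).card : ℝ) := by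
    exact_mod_cast h1
  have h6 : 2 * (G : ℝ) / d = 2 * (G / d) := by ring
  have h7 : 3 * (G : ℝ) / d = 3 * (G / d) := by ring
  rw [h6] at h2 h4
  rw [h7]
  linarith

lemma GMR_tau {g : ℕ} (hg : Squarefree g) : g.divisors.card ≤ 2 ^ (om g) := by
  rw [Nat.card_divisors hg.ne_zero]
  unfold om
  refine Finset.prod_le_pow_card _ _ _ ?_
  intro p _
  have := Squarefree.natFactorization_le_one p hg
  omega

theorem GMR (hOMG : OMG_stmt) : GMR_stmt := by
  obtain ⟨Z₀, hZ⟩ := hOMG (1 / 100) 2 (by norm_num) (by norm_num)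
  refine ⟨Z₀, ?_⟩
  intro q G hq hG g hg hgs hgc
  have hrough : ∀ n : ℕ, n ≠ 0 → n.Coprime (2 * q) → (2 : ℝ) ^ (om n) ≤ (n : ℝ) ^ (1 / 100 : ℝ) := by
    intro n hn hc
    refine le_trans ?_ (hZ n hn ?_)
    · exact pow_le_pow_right₀ (by norm_num) (GMR_om_le n)
    · intro p hp hpn
      by_contra hcon
      push Not at hcon
      have h1 := hq p hp hcon
      have h2 := Nat.dvd_gcd hpn h1
      rw [Nat.Coprime] at hc
      rw [hc] at h2
      exact hp.one_lt.ne' (Nat.dvd_one.mp h2)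
  have hG0 : (0 : ℝ) < G := by exact_mod_cast hG
  have hG1 : (1 : ℝ) ≤ G := by exact_mod_cast hG
  rw [mem_Ioc] at hg
  have hg0 : g ≠ 0 := by omega
  set F := (Ioc G (2 * G)).filter (fun g' => Squarefree g' ∧ g'.Coprime (2 * q)) with hF
  -- first part, pointwise
  have hpt : ∀ g' ∈ F, (2 : ℝ) ^ (om (ee g g')) / √((ee g g' : ℕ) : ℝ) ≤
      2 * (G : ℝ) ^ (1 / 50 : ℝ) * ((g.gcd g' : ℕ) : ℝ) / G := by
    intro g' hg'
    rw [hF, mem_filter, mem_Ioc] at hg'
    obtain ⟨⟨h1, h2⟩, h3, h4⟩ := hg'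
    have hd : 0 < g.gcd g' := Nat.gcd_pos_of_pos_left _ (by omega)
    have hda : g.gcd g' * (g / g.gcd g') = g := Nat.mul_div_cancel' (Nat.gcd_dvd_left _ _)
    have hdb : g.gcd g' * (g' / g.gcd g') = g' := Nat.mul_div_cancel' (Nat.gcd_dvd_right _ _)
    set d := g.gcd g' with hdd
    set a := g / d with ha
    set b := g' / d with hb
    have hee : ee g g' = a * b := rfl
    have ha0 : 0 < a := by
      rcases Nat.eq_zero_or_pos a with h | h
      · rw [h] at hda; omega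
      · exact h
    have hb0 : 0 < b := by
      rcases Nat.eq_zero_or_pos b with h | h
      · rw [h] at hdb; omega
      · exact h
    have hag : a ∣ g := ⟨d, by rw [mul_comm]; exact hda.symm⟩
    have hbg : b ∣ g' := ⟨d, by rw [mul_comm]; exact hdb.symm⟩
    have hcop : (a * b).Coprime (2 * q) :=
      Nat.Coprime.mul_left (Nat.Coprime.coprime_dvd_left hag hgc) (Nat.Coprime.coprime_dvd_left hbg h4)
    have hab : a * b ≤ 4 * G ^ 2 := by
      have h5 : a ≤ 2 * G := le_trans (Nat.le_of_dvd (by omega) hag) hg.2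
      have h6 : b ≤ 2 * G := le_trans (Nat.le_of_dvd (by omega) hbg) h2
      calc a * b ≤ (2 * G) * (2 * G) := Nat.mul_le_mul h5 h6
        _ = 4 * G ^ 2 := by ring
    have hd0 : (0 : ℝ) < d := by exact_mod_cast hd
    have haR : (G : ℝ) / d ≤ a := by
      rw [div_le_iff₀ hd0]
      have : ((G : ℕ) : ℝ) ≤ ((d * a : ℕ) : ℝ) := by rw [hda]; exact_mod_cast hg.1.le
      push_cast at this
      linarith
    have hbR : (G : ℝ) / d ≤ b := by
      rw [div_le_iff₀ hd0]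
      have : ((G : ℕ) : ℝ) ≤ ((d * b : ℕ) : ℝ) := by rw [hdb]; exact_mod_cast h1.le
      push_cast at this
      linarith
    have hGd : (0 : ℝ) < (G : ℝ) / d := div_pos hG0 hd0
    rw [hee]
    have hsq : (G : ℝ) / d ≤ √((a * b : ℕ) : ℝ) := by
      apply Real.le_sqrt_of_sq_le
      push_cast
      rw [sq]
      exact mul_le_mul haR hbR hGd.le (by positivity)
    have hnum : (2 : ℝ) ^ (om (a * b)) ≤ 2 * (G : ℝ) ^ (1 / 50 : ℝ) := by
      refine le_trans (hrough (a * b) (by positivity) hcop) ?_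
      have h5 : ((a * b : ℕ) : ℝ) ≤ 4 * (G : ℝ) ^ 2 := by exact_mod_cast hab
      refine le_trans (Real.rpow_le_rpow (by positivity) h5 (by norm_num)) ?_
      rw [Real.mul_rpow (by norm_num) (by positivity)]
      refine mul_le_mul ?_ ?_ (by positivity) (by norm_num)
      · calc (4 : ℝ) ^ (1 / 100 : ℝ) ≤ (4 : ℝ) ^ (1 / 2 : ℝ) :=
            Real.rpow_le_rpow_of_exponent_le (by norm_num) (by norm_num)
          _ = 2 := by
            rw [show (4 : ℝ) = 2 ^ (2 : ℝ) by norm_num, ← Real.rpow_mul (by norm_num)]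
            norm_num
      · rw [← Real.rpow_natCast, ← Real.rpow_mul hG0.le]
        norm_num
    calc (2 : ℝ) ^ (om (a * b)) / √((a * b : ℕ) : ℝ) ≤ (2 * (G : ℝ) ^ (1 / 50 : ℝ)) / ((G : ℝ) / d) :=
          div_le_div₀ (by positivity) hnum hGd hsq
      _ = 2 * (G : ℝ) ^ (1 / 50 : ℝ) * (d : ℝ) / G := by
          field_simp
  -- sum of gcds
  have hgcd : ∑ g' ∈ F, ((g.gcd g' : ℕ) : ℝ) ≤ 3 * G * (g.divisors.card : ℝ) := by
    have h1 : ∀ g' ∈ F, ((g.gcd g' : ℕ) : ℝ) ≤ ∑ d ∈ g.divisors, (if d ∣ g' then (d : ℝ) else 0) := by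
      intro g' _
      have hmem : g.gcd g' ∈ g.divisors := Nat.mem_divisors.mpr ⟨Nat.gcd_dvd_left _ _, hg0⟩
      have h2 := Finset.single_le_sum (f := fun d => (if d ∣ g' then (d : ℝ) else 0))
        (fun d _ => by split_ifs <;> positivity) hmem
      simp only [Nat.gcd_dvd_right, if_true] at h2
      exact h2
    refine le_trans (Finset.sum_le_sum h1) ?_
    rw [Finset.sum_comm]
    have h2 : ∀ d ∈ g.divisors, ∑ g' ∈ F, (if d ∣ g' then (d : ℝ) else 0) ≤ 3 * G := by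
      intro d hd
      rw [Nat.mem_divisors] at hd
      have hd1 : 1 ≤ d := Nat.pos_of_dvd_of_pos hd.1 (by omega)
      have hd2 : d ≤ 2 * G := le_trans (Nat.le_of_dvd (by omega) hd.1) hg.2
      have hd0 : (0 : ℝ) < d := by exact_mod_cast hd1
      rw [← Finset.sum_filter, Finset.sum_const, nsmul_eq_mul]
      have h3 : ((F.filter (fun g' => d ∣ g')).card : ℝ) ≤ 3 * G / d := by
        refine le_trans ?_ (GMR_mult G d hd1 hd2)
        have h4 : (F.filter (fun g' => d ∣ g')).card ≤ ((Ioc G (2 * G)).filter (fun x => d ∣ x)).card := by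
          apply Finset.card_le_card
          intro x hx
          rw [mem_filter, hF, mem_filter] at hx
          rw [mem_filter]
          exact ⟨hx.1.1, hx.2⟩
        exact_mod_cast h4
      calc ((F.filter (fun g' => d ∣ g')).card : ℝ) * d ≤ (3 * G / d) * d :=
            mul_le_mul_of_nonneg_right h3 hd0.le
        _ = 3 * G := by field_simp
    refine le_trans (Finset.sum_le_sum h2) ?_
    rw [Finset.sum_const, nsmul_eq_mul]
    linarith
  have htau : (g.divisors.card : ℝ) ≤ 2 * (G : ℝ) ^ (1 / 100 : ℝ) := by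
    have h1 : (g.divisors.card : ℝ) ≤ (2 : ℝ) ^ (om g) := by exact_mod_cast GMR_tau hgs
    have h2 := hrough g hg0 hgc
    have h3 : (g : ℝ) ≤ 2 * G := by exact_mod_cast hg.2
    have h4 : (g : ℝ) ^ (1 / 100 : ℝ) ≤ 2 * (G : ℝ) ^ (1 / 100 : ℝ) := by
      refine le_trans (Real.rpow_le_rpow (by positivity) h3 (by norm_num)) ?_
      rw [Real.mul_rpow (by norm_num) (by positivity)]
      refine mul_le_mul_of_nonneg_right ?_ (by positivity)
      calc (2 : ℝ) ^ (1 / 100 : ℝ) ≤ (2 : ℝ) ^ (1 : ℝ) :=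
            Real.rpow_le_rpow_of_exponent_le (by norm_num) (by norm_num)
        _ = 2 := by norm_num
    linarith
  rw [Finset.sum_add_distrib]
  have hA : ∑ g' ∈ F, (2 : ℝ) ^ (om (ee g g')) / √((ee g g' : ℕ) : ℝ) ≤ 12 * (G : ℝ) ^ (1 / 10 : ℝ) := by
    refine le_trans (Finset.sum_le_sum hpt) ?_
    have h1 : ∑ g' ∈ F, 2 * (G : ℝ) ^ (1 / 50 : ℝ) * ((g.gcd g' : ℕ) : ℝ) / G =
        2 * (G : ℝ) ^ (1 / 50 : ℝ) / G * ∑ g' ∈ F, ((g.gcd g' : ℕ) : ℝ) := by
      rw [Finset.mul_sum]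
      refine Finset.sum_congr rfl ?_
      intro x _
      ring
    rw [h1]
    have h2 : 2 * (G : ℝ) ^ (1 / 50 : ℝ) / G * ∑ g' ∈ F, ((g.gcd g' : ℕ) : ℝ) ≤
        2 * (G : ℝ) ^ (1 / 50 : ℝ) / G * (3 * G * (2 * (G : ℝ) ^ (1 / 100 : ℝ))) := by
      refine mul_le_mul_of_nonneg_left ?_ (by positivity)
      refine le_trans hgcd ?_
      exact mul_le_mul_of_nonneg_left htau (by positivity)
    refine le_trans h2 ?_
    have h3 : 2 * (G : ℝ) ^ (1 / 50 : ℝ) / G * (3 * G * (2 * (G : ℝ) ^ (1 / 100 : ℝ))) =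
        12 * ((G : ℝ) ^ (1 / 50 : ℝ) * (G : ℝ) ^ (1 / 100 : ℝ)) := by
      field_simp
      ring
    rw [h3, ← Real.rpow_add hG0]
    refine mul_le_mul_of_nonneg_left ?_ (by norm_num)
    exact Real.rpow_le_rpow_of_exponent_le hG1 (by norm_num)
  have hB : ∑ _g' ∈ F, 8 / (G : ℝ) ^ 2 ≤ 8 * (G : ℝ) ^ (1 / 10 : ℝ) := by
    rw [Finset.sum_const, nsmul_eq_mul]
    have h1 : (F.card : ℝ) ≤ G := by
      have h2 : F.card ≤ (Ioc G (2 * G)).card := Finset.card_le_card (Finset.filter_subset _ _)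
      rw [Nat.card_Ioc] at h2
      have h3 : F.card ≤ G := by omega
      exact_mod_cast h3
    have h2 : (F.card : ℝ) * (8 / (G : ℝ) ^ 2) ≤ G * (8 / (G : ℝ) ^ 2) :=
      mul_le_mul_of_nonneg_right h1 (by positivity)
    have h3 : (G : ℝ) * (8 / (G : ℝ) ^ 2) = 8 / G := by
      field_simp
    have h4 : 8 / (G : ℝ) ≤ 8 := by
      rw [div_le_iff₀ hG0]
      nlinarith
    have h5 : (1 : ℝ) ≤ (G : ℝ) ^ (1 / 10 : ℝ) := Real.one_le_rpow hG1 (by norm_num)
    linarith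
  have h5 : (0 : ℝ) ≤ (G : ℝ) ^ (1 / 10 : ℝ) := by positivity
  linarith

end Pool.Agent.SU
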