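import Pool.Agent.helper40.SU.SpecA

set_option autoImplicit false

open Finset

namespace Pool.Agent.SU

/-- a prime factor of `Df m u k` prime to `2 q` does not divide `u`, if `(u, k)` is primitive -/
lemma LIN_unit {Z m q u₀ k₀ : ℕ} (hZ : 7 ≤ Z) (hD : Dat Z m q u₀ k₀) {p : ℕ} (hp : p.Prime) (hpq : ¬ p ∣ 2 * q)
    {u k : ℕ} (hc : u.Coprime k) (h : p ∣ Df m u k) : ¬ p ∣ u := by
  intro hu
  have hp7 : 7 < p := by
    by_contra hcon
    push Not at hcon
    exact hpq (hD.small p hp (le_trans hcon hZ))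
  have h1 : p ∣ (m ^ 2 + 1) * u ^ 4 := Dvd.dvd.mul_left (dvd_pow hu (by norm_num)) _
  have h2 : p ∣ (k * (m ^ 2 * u + 420 * k)) ^ 2 := by
    unfold Df at h
    exact (Nat.dvd_add_right h1).mp h
  have h3 : p ∣ k * (m ^ 2 * u + 420 * k) := hp.dvd_of_dvd_pow h2
  have hk : p ∣ k := by
    rcases (Nat.Prime.dvd_mul hp).mp h3 with h4 | h4
    · exact h4
    · have h5 : p ∣ 420 * k := (Nat.dvd_add_right (Dvd.dvd.mul_left hu _)).mp h4
      rcases (Nat.Prime.dvd_mul hp).mp h5 with h6 | h6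
      · exfalso
        have h7 : p ∣ 2 * 2 * 3 * 5 * 7 := by norm_num; exact h6
        simp only [Nat.Prime.dvd_mul hp] at h7
        rcases h7 with (((h7 | h7) | h7) | h7) | h7 <;> · have := Nat.le_of_dvd (by norm_num) h7; omega
      · exact h6
  have h8 := Nat.dvd_gcd hu hk
  rw [Nat.Coprime] at hc
  rw [hc] at h8
  exact hp.one_lt.ne' (Nat.dvd_one.mp h8)

lemma LIN_Df_hom (m u y : ℕ) : Df m u (y * u) = u ^ 4 * Df m 1 y := by
  unfold Df
  ring

lemma LIN_Df_mod (m r x y x' y' : ℕ) (h1 : x ≡ x' [MOD r]) (h2 : y ≡ y' [MOD r]) :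
    Df m x y ≡ Df m x' y' [MOD r] := by
  unfold Df
  refine Nat.ModEq.add ?_ ?_
  · exact Nat.ModEq.mul_left _ (h1.pow 4)
  · refine Nat.ModEq.pow 2 ?_
    refine Nat.ModEq.mul h2 ?_
    exact Nat.ModEq.add (Nat.ModEq.mul_left _ h1) (Nat.ModEq.mul_left _ h2)

/-- the root `k / u` modulo `M` -/
lemma LIN_root (m M u k : ℕ) (hM : 1 ≤ M) (hu : u.Coprime M) (h : M ∣ Df m u k) :
    ∃ y ∈ (range M).filter (fun y => M ∣ Df m 1 y), k ≡ y * u [MOD M] := by
  have : NeZero M := ⟨by omega⟩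
  have h0 : k ≡ ((k : ZMod M) * (u : ZMod M)⁻¹).val * u [MOD M] := by
    rw [← ZMod.natCast_eq_natCast_iff]
    push_cast
    rw [ZMod.natCast_zmod_val]
    rw [mul_assoc, mul_comm _ (u : ZMod M), ZMod.coe_mul_inv_eq_one u hu, mul_one]
  refine ⟨((k : ZMod M) * (u : ZMod M)⁻¹).val, ?_, h0⟩
  rw [mem_filter, mem_range]
  refine ⟨ZMod.val_lt _, ?_⟩
  set y := ((k : ZMod M) * (u : ZMod M)⁻¹).val with hy
  have h1 : Df m u k ≡ Df m u (y * u) [MOD M] := LIN_Df_mod m M u k u (y * u) rfl h0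
  have h2 : M ∣ Df m u (y * u) := (Nat.ModEq.dvd_iff h1 dvd_rfl).mp h
  rw [LIN_Df_hom] at h2
  have h3 : M.Coprime (u ^ 4) := Nat.Coprime.pow_right 4 hu.symm
  exact h3.dvd_of_dvd_mul_left h2

/-- the number of `j` in a residue class -/
lemma LIN_count (K M c v q : ℕ) (hM : 1 ≤ M) (hq : M.Coprime (2 * q)) :
    (((Ico K (2 * K)).filter (fun j => c + 64 * q * j ≡ v [MOD M])).card : ℝ) ≤ (K : ℝ) / M + 1 := by
  have hM0 : (0 : ℝ) < M := by exact_mod_cast hM
  rcases Finset.eq_empty_or_nonempty ((Ico K (2 * K)).filter (fun j => c + 64 * q * j ≡ v [MOD M])) with h | h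
  · rw [h]
    simp only [card_empty, Nat.cast_zero]
    positivity
  · obtain ⟨j₀, hj₀⟩ := h
    rw [mem_filter] at hj₀
    have hsub : (Ico K (2 * K)).filter (fun j => c + 64 * q * j ≡ v [MOD M]) ⊆
        (Ico K (2 * K)).filter (fun j => j ≡ j₀ [MOD M]) := by
      intro j hj
      rw [mem_filter] at hj ⊢
      refine ⟨hj.1, ?_⟩
      have h1 : c + 64 * q * j ≡ c + 64 * q * j₀ [MOD M] := hj.2.trans hj₀.2.symm
      have h2 : 64 * q * j ≡ 64 * q * j₀ [MOD M] := Nat.ModEq.add_left_cancel' c h1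
      have h3 : M.Coprime (64 * q) := by
        have h4 : M.Coprime 2 := Nat.Coprime.coprime_dvd_right (Dvd.intro q rfl) hq
        have h5 : M.Coprime q := Nat.Coprime.coprime_dvd_right (Dvd.intro_left 2 rfl) hq
        have h6 : M.Coprime 64 := by
          have : (64 : ℕ) = 2 ^ 6 := by norm_num
          rw [this]
          exact Nat.Coprime.pow_right 6 h4
        exact Nat.Coprime.mul_right h6 h5
      exact Nat.ModEq.cancel_left_of_coprime h3 h2
    have h1 : (((Ico K (2 * K)).filter (fun j => c + 64 * q * j ≡ v [MOD M])).card : ℝ) ≤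
        (((Ico K (2 * K)).filter (fun j => j ≡ j₀ [MOD M])).card : ℝ) := by
      exact_mod_cast Finset.card_le_card hsub
    refine le_trans h1 ?_
    have h2 := Nat.Ico_filter_modEq_card K (2 * K) (r := M) hM j₀
    have h3 : (((Ico K (2 * K)).filter (fun j => j ≡ j₀ [MOD M])).card : ℤ) ≤ ⌈((K : ℚ)) / M⌉ := by
      rw [h2]
      apply max_le
      · have h4 : (((2 * K : ℕ) : ℚ) - j₀) / (M : ℚ) = ((K : ℚ) - j₀) / M + (K : ℚ) / M := by
          push_cast
          ring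
        rw [h4]
        have h5 := Int.ceil_add_le (((K : ℚ) - j₀) / M) ((K : ℚ) / M)
        linarith
      · apply Int.ceil_nonneg
        positivity
    have h4 : ((⌈((K : ℚ)) / M⌉ : ℤ) : ℚ) < (K : ℚ) / M + 1 := Int.ceil_lt_add_one _
    have h5 : ((((Ico K (2 * K)).filter (fun j => j ≡ j₀ [MOD M])).card : ℕ) : ℚ) ≤ (K : ℚ) / M + 1 := by
      have h6 : (((((Ico K (2 * K)).filter (fun j => j ≡ j₀ [MOD M])).card : ℕ) : ℤ) : ℚ) ≤ ((⌈((K : ℚ)) / M⌉ : ℤ) : ℚ) := by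
        exact_mod_cast h3
      push_cast at h6 ⊢
      linarith
    have h7 : ((((((Ico K (2 * K)).filter (fun j => j ≡ j₀ [MOD M])).card : ℕ) : ℚ)) : ℝ) ≤ (((K : ℚ) / M + 1 : ℚ) : ℝ) :=
      Rat.cast_le.mpr h5
    push_cast at h7
    exact h7

theorem LIN : LIN_stmt := by
  intro Z m q u₀ k₀ hZ hD K M hM hMq
  set R := (range M).filter (fun y => M ∣ Df m 1 y) with hR
  have hrt : rt m M = R.card := rfl
  set A := (Px q u₀ k₀ K).filter (fun x => M ∣ Df m x.1 x.2) with hA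
  have hsub : A ⊆ (Ico K (2 * K)).biUnion (fun i => R.biUnion (fun y =>
      ((Ico K (2 * K)).filter (fun j => k₀ + 64 * q * j ≡ y * (u₀ + 64 * q * i) [MOD M])).image
        (fun j => (u₀ + 64 * q * i, k₀ + 64 * q * j)))) := by
    intro x hx
    rw [hA, mem_filter] at hx
    obtain ⟨hx1, hx2⟩ := hx
    unfold Px at hx1
    rw [mem_filter] at hx1
    obtain ⟨hx3, hx4⟩ := hx1
    unfold Bx at hx3
    rw [mem_image] at hx3
    obtain ⟨ij, hij, hijx⟩ := hx3
    rw [mem_product] at hij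
    subst hijx
    simp only at hx2 hx4
    have hcop : (u₀ + 64 * q * ij.1).Coprime M := by
      rw [Nat.coprime_iff_gcd_eq_one] 
      by_contra hcon
      obtain ⟨p, hp, hpd⟩ := Nat.exists_prime_and_dvd hcon
      have h1 : p ∣ u₀ + 64 * q * ij.1 := dvd_trans hpd (Nat.gcd_dvd_left _ _)
      have h2 : p ∣ M := dvd_trans hpd (Nat.gcd_dvd_right _ _)
      have h3 : ¬ p ∣ 2 * q := by
        intro h4
        have h5 := Nat.dvd_gcd h2 h4
        rw [Nat.Coprime] at hMq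
        rw [hMq] at h5
        exact hp.one_lt.ne' (Nat.dvd_one.mp h5)
      exact LIN_unit hZ hD hp h3 hx4 (dvd_trans h2 hx2) h1
    obtain ⟨y, hy, hyk⟩ := LIN_root m M _ _ hM hcop hx2
    rw [mem_biUnion]
    refine ⟨ij.1, hij.1, ?_⟩
    rw [mem_biUnion]
    refine ⟨y, hy, ?_⟩
    rw [mem_image]
    refine ⟨ij.2, ?_, rfl⟩
    rw [mem_filter]
    exact ⟨hij.2, hyk⟩
  have h1 : (A.card : ℝ) ≤ ∑ i ∈ Ico K (2 * K), ∑ y ∈ R,
      (((Ico K (2 * K)).filter (fun j => k₀ + 64 * q * j ≡ y * (u₀ + 64 * q * i) [MOD M])).card : ℝ) := by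
    have h2 : A.card ≤ ∑ i ∈ Ico K (2 * K), ∑ y ∈ R,
        ((Ico K (2 * K)).filter (fun j => k₀ + 64 * q * j ≡ y * (u₀ + 64 * q * i) [MOD M])).card := by
      refine le_trans (Finset.card_le_card hsub) ?_
      refine le_trans Finset.card_biUnion_le ?_
      refine Finset.sum_le_sum fun i _ => ?_
      refine le_trans Finset.card_biUnion_le ?_
      refine Finset.sum_le_sum fun y _ => ?_
      exact Finset.card_image_le
    exact_mod_cast h2
  have h2 : ∑ i ∈ Ico K (2 * K), ∑ y ∈ R,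
      (((Ico K (2 * K)).filter (fun j => k₀ + 64 * q * j ≡ y * (u₀ + 64 * q * i) [MOD M])).card : ℝ) ≤
      ∑ _i ∈ Ico K (2 * K), ∑ _y ∈ R, ((K : ℝ) / M + 1) :=
    Finset.sum_le_sum fun i _ => Finset.sum_le_sum fun y _ => LIN_count K M k₀ _ q hM hMq
  have h3 : ∑ _i ∈ Ico K (2 * K), ∑ _y ∈ R, ((K : ℝ) / M + 1) = (K : ℝ) * (R.card * ((K : ℝ) / M + 1)) := by
    rw [Finset.sum_const, Finset.sum_const, Nat.card_Ico, nsmul_eq_mul, nsmul_eq_mul]
    congr 1
    have : 2 * K - K = K := by omega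
    rw [this]
  rw [hrt]
  calc (A.card : ℝ) ≤ (K : ℝ) * (R.card * ((K : ℝ) / M + 1)) := by rw [← h3]; exact le_trans h1 h2
    _ = (R.card : ℝ) * ((K : ℝ) ^ 2 / M + K) := by ring

end Pool.Agent.SU
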