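import Pool.Agent.helper62.SU.LIN

set_option autoImplicit false

open Finset

namespace Pool.Agent.SU

/-- primitive proportional pairs are equal -/
lemma MLT_prim {u k u' k' : ℕ} (hu : 0 < u) (hc : u.Coprime k) (hc' : u'.Coprime k') (h : k * u' = k' * u) :
    u = u' ∧ k = k' := by
  have h1 : u ∣ u' := by
    have : u ∣ k * u' := by rw [h]; exact Dvd.intro_left k' rfl
    exact hc.dvd_of_dvd_mul_left this
  have h2 : u' ∣ u := by
    have : u' ∣ k' * u := by rw [← h]; exact Dvd.intro_left k rfl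
    exact hc'.dvd_of_dvd_mul_left this
  have h3 : u = u' := Nat.dvd_antisymm h1 h2
  subst h3
  exact ⟨rfl, Nat.eq_of_mul_eq_mul_right hu h⟩

theorem MLT (hRT1 : RT1_stmt) (hDCO : DCO_stmt) : MLT_stmt := by
  intro Z m q u₀ k₀ hZ hD
  have hq0 : 0 < q := hD.q_odd.pos
  set Γ := Df m (64 * q) (64 * q) with hΓ
  have hΓq : (64 * q) ^ 4 ≤ Γ := by
    rw [hΓ]
    unfold Df
    have h1 : 1 * (64 * q) ^ 4 ≤ (m ^ 2 + 1) * (64 * q) ^ 4 := Nat.mul_le_mul_right _ (by omega)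
    omega
  have h64 : 0 < 64 * q := Nat.mul_pos (by norm_num) hq0
  have hΓ0 : 0 < Γ := lt_of_lt_of_le (Nat.pow_pos h64) hΓq
  refine ⟨256 * Γ ^ 2 + 2, ?_⟩
  intro K hK y hy1 hy2 D hDs hsm
  have hK2 : 2 ≤ K := by omega
  have hK1 : 1 ≤ K := by omega
  set A := (Px q u₀ k₀ K).filter (fun x => Df m x.1 x.2 = D) with hA
  rcases Finset.eq_empty_or_nonempty A with hAe | hAn
  · rw [hAe]
    simp
  obtain ⟨x₀, hx₀⟩ := hAn
  have hAB : ∀ x ∈ A, x ∈ Bx q u₀ k₀ K ∧ x.1.Coprime x.2 ∧ Df m x.1 x.2 = D := by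
    intro x hx
    rw [hA, mem_filter] at hx
    unfold Px at hx
    rw [mem_filter] at hx
    exact ⟨hx.1.1, hx.1.2, hx.2⟩
  obtain ⟨hB0, _, hE0⟩ := hAB x₀ hx₀
  have hd0 := (hDCO Z m q u₀ k₀ K hD hK1).2 x₀ hB0
  rw [hE0] at hd0
  obtain ⟨_, _, hcop, _, _, _, _, hlo, hhi⟩ := hd0
  rw [← hΓ] at hlo hhi
  -- the rough part
  set Pr := D.primeFactors.filter (fun p => ¬ p ≤ y) with hPr
  have hprime : ∀ p ∈ Pr, p.Prime := by
    intro p hp
    rw [hPr, mem_filter] at hp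
    exact Nat.prime_of_mem_primeFactors hp.1
  have hdvd : ∀ p ∈ Pr, p ∣ D := by
    intro p hp
    rw [hPr, mem_filter] at hp
    exact Nat.dvd_of_mem_primeFactors hp.1
  have hprod : smp y D * ∏ p ∈ Pr, p = D := by
    unfold smp
    rw [hPr, Finset.prod_filter_mul_prod_filter_not]
    exact Nat.prod_primeFactors_of_squarefree hDs
  have hDpos : 0 < D := Nat.pos_of_ne_zero hDs.ne_zero
  have hsm0 : 0 < smp y D := by
    rcases Nat.eq_zero_or_pos (smp y D) with h | h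
    · rw [h] at hprod; omega
    · exact h
  have hDr : Γ * K ^ 3 ≤ ∏ p ∈ Pr, p := by
    have h1 : Γ * K ^ 4 ≤ K * ∏ p ∈ Pr, p := by
      calc Γ * K ^ 4 ≤ D := hlo
        _ = smp y D * ∏ p ∈ Pr, p := hprod.symm
        _ ≤ K * ∏ p ∈ Pr, p := Nat.mul_le_mul_right _ hsm
    have h2 : K * (Γ * K ^ 3) ≤ K * ∏ p ∈ Pr, p := by
      calc K * (Γ * K ^ 3) = Γ * K ^ 4 := by ring
        _ ≤ _ := h1
    exact Nat.le_of_mul_le_mul_left h2 (by omega)
  -- number of rough primes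
  have hcard : Pr.card ≤ 90 := by
    have h1 : (y + 1) ^ Pr.card ≤ ∏ p ∈ Pr, p := by
      apply Finset.pow_card_le_prod
      intro p hp
      rw [hPr, mem_filter] at hp
      omega
    have h2 : ∏ p ∈ Pr, p ≤ D := by
      calc ∏ p ∈ Pr, p = 1 * ∏ p ∈ Pr, p := (one_mul _).symm
        _ ≤ smp y D * ∏ p ∈ Pr, p := Nat.mul_le_mul_right _ hsm0
        _ = D := hprod
    have h3 : K ^ Pr.card ≤ (16 * Γ * K ^ 4) ^ 20 := by
      calc K ^ Pr.card ≤ ((y + 1) ^ 20) ^ Pr.card := Nat.pow_le_pow_left hy2.le _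
        _ = ((y + 1) ^ Pr.card) ^ 20 := by rw [← pow_mul, ← pow_mul, mul_comm]
        _ ≤ (16 * Γ * K ^ 4) ^ 20 := Nat.pow_le_pow_left (le_trans h1 (le_trans h2 hhi)) _
    have h4 : (16 * Γ * K ^ 4) ^ 20 ≤ K ^ 90 := by
      have h5 : (16 * Γ) ^ 2 ≤ K := by
        have : (16 * Γ) ^ 2 = 256 * Γ ^ 2 := by ring
        omega
      calc (16 * Γ * K ^ 4) ^ 20 = ((16 * Γ) ^ 2) ^ 10 * K ^ 80 := by
            rw [mul_pow, ← pow_mul, ← pow_mul]
        _ ≤ K ^ 10 * K ^ 80 := Nat.mul_le_mul_right _ (Nat.pow_le_pow_left h5 _)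
        _ = K ^ 90 := by rw [← pow_add]
    exact (Nat.pow_le_pow_iff_right (by omega)).mp (le_trans h3 h4)
  -- roots
  have hex : ∀ x ∈ A, ∀ p ∈ Pr, ∃ z ∈ (range p).filter (fun z => p ∣ Df m 1 z), x.2 ≡ z * x.1 [MOD p] := by
    intro x hx p hp
    obtain ⟨_, hc, hE⟩ := hAB x hx
    have hpp := hprime p hp
    have hpD : p ∣ Df m x.1 x.2 := by rw [hE]; exact hdvd p hp
    have hpq : ¬ p ∣ 2 * q := by
      intro h4
      have h5 := Nat.dvd_gcd (hdvd p hp) h4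
      rw [Nat.Coprime] at hcop
      rw [hcop] at h5
      exact hpp.one_lt.ne' (Nat.dvd_one.mp h5)
    have hnu := LIN_unit hZ hD hpp hpq hc hpD
    exact LIN_root m p x.1 x.2 hpp.one_le ((Nat.Prime.coprime_iff_not_dvd hpp).mpr hnu).symm hpD
  choose! φ hφ using hex
  have hpi : A.card ≤ (Pr.pi (fun p => (range p).filter (fun z => p ∣ Df m 1 z))).card := by
    apply Finset.card_le_card_of_injOn (fun x => fun p _ => φ x p)
    · intro x hx
      rw [Finset.mem_coe] at hx ⊢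
      rw [Finset.mem_pi]
      intro p hp
      exact (hφ x hx p hp).1
    · intro x hx x' hx' hxx
      rw [Finset.mem_coe] at hx hx'
      obtain ⟨hB, hc, hE⟩ := hAB x hx
      obtain ⟨hB', hc', hE'⟩ := hAB x' hx'
      have hb := (hDCO Z m q u₀ k₀ K hD hK1).2 x hB
      have hb' := (hDCO Z m q u₀ k₀ K hD hK1).2 x' hB'
      obtain ⟨_, _, _, hu1, _, hu2, hk2, _, _⟩ := hb
      obtain ⟨_, _, _, _, _, hu2', hk2', _, _⟩ := hb'
      have hpe : ∀ p ∈ Pr, φ x p = φ x' p := by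
        intro p hp
        have h1 := congrFun hxx p
        exact congrFun h1 hp
      have hmod : ∀ p ∈ Pr, p ∣ (((x'.2 * x.1 : ℕ) : ℤ) - ((x.2 * x'.1 : ℕ) : ℤ)).natAbs := by
        intro p hp
        rw [← Int.natCast_dvd, ← Nat.modEq_iff_dvd]
        have h1 := (hφ x hx p hp).2
        have h2 := (hφ x' hx' p hp).2
        rw [hpe p hp] at h1
        calc x.2 * x'.1 ≡ (φ x' p * x.1) * x'.1 [MOD p] := h1.mul_right _
          _ ≡ (φ x' p * x'.1) * x.1 [MOD p] := by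
            have : φ x' p * x.1 * x'.1 = φ x' p * x'.1 * x.1 := by ring
            rw [this]
          _ ≡ x'.2 * x.1 [MOD p] := h2.symm.mul_right _
      have hDd : (∏ p ∈ Pr, p) ∣ (((x'.2 * x.1 : ℕ) : ℤ) - ((x.2 * x'.1 : ℕ) : ℤ)).natAbs :=
        Finset.prod_primes_dvd _ (fun p hp => (hprime p hp).prime) hmod
      have hsmall : (((x'.2 * x.1 : ℕ) : ℤ) - ((x.2 * x'.1 : ℕ) : ℤ)).natAbs < ∏ p ∈ Pr, p := by
        have h1 : x'.2 * x.1 ≤ (128 * q * K) * (128 * q * K) := Nat.mul_le_mul hk2' hu2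
        have h2 : x.2 * x'.1 ≤ (128 * q * K) * (128 * q * K) := Nat.mul_le_mul hk2 hu2'
        have h3 : (128 * q * K) * (128 * q * K) < Γ * K ^ 3 := by
          have h4 : (128 * q * K) * (128 * q * K) = (4 * (64 * q) ^ 2) * K ^ 2 := by ring
          have h5 : 4 * (64 * q) ^ 2 ≤ (64 * q) ^ 4 := by
            have h6 : 4 ≤ (64 * q) ^ 2 := by
              calc 4 ≤ 64 ^ 2 := by norm_num
                _ ≤ (64 * q) ^ 2 := Nat.pow_le_pow_left (by omega) 2
            calc 4 * (64 * q) ^ 2 ≤ (64 * q) ^ 2 * (64 * q) ^ 2 := Nat.mul_le_mul_right _ h6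
              _ = (64 * q) ^ 4 := by ring
          rw [h4]
          calc (4 * (64 * q) ^ 2) * K ^ 2 ≤ Γ * K ^ 2 := Nat.mul_le_mul_right _ (le_trans h5 hΓq)
            _ < Γ * K ^ 3 := by
              apply Nat.mul_lt_mul_of_pos_left _ hΓ0
              exact Nat.pow_lt_pow_right (by omega) (by norm_num)
        omega
      have hz := Nat.eq_zero_of_dvd_of_lt hDd hsmall
      rw [Int.natAbs_eq_zero, sub_eq_zero] at hz
      have hz' : x.2 * x'.1 = x'.2 * x.1 := by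
        have := hz.symm
        exact_mod_cast this
      have hux : 0 < x.1 := lt_of_lt_of_le (Nat.mul_pos h64 (by omega)) hu1
      obtain ⟨e1, e2⟩ := MLT_prim hux hc hc' hz'
      exact Prod.ext e1 e2
  refine le_trans hpi ?_
  rw [Finset.card_pi]
  calc ∏ p ∈ Pr, ((range p).filter (fun z => p ∣ Df m 1 z)).card ≤ ∏ _p ∈ Pr, 4 := by
        apply Finset.prod_le_prod'
        intro p hp
        have hpp := hprime p hp
        have hpq : ¬ p ∣ 2 * q := by
          intro h4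
          have h5 := Nat.dvd_gcd (hdvd p hp) h4
          rw [Nat.Coprime] at hcop
          rw [hcop] at h5
          exact hpp.one_lt.ne' (Nat.dvd_one.mp h5)
        exact (hRT1 Z m q u₀ k₀ hZ hD p hpp hpq).1
    _ = 4 ^ Pr.card := Finset.prod_const _
    _ ≤ 4 ^ 90 := Nat.pow_le_pow_right (by norm_num) hcard

end Pool.Agent.SU
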