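import Pool.Agent.helper40.SU.SpecA

set_option autoImplicit false

open Finset

namespace Pool.Agent.SU

theorem OMG : OMG_stmt := by
  intro θ A hθ hA
  refine ⟨⌈A ^ (1 / θ)⌉₊, ?_⟩
  have hA0 : (0 : ℝ) ≤ A := by linarith
  intro n
  induction n using induction_on_primes with
  | zero => intro h; exact absurd rfl h
  | one =>
    intro _ _
    simp
  | prime_mul p a hp ih =>
    intro hne hpr
    have ha : a ≠ 0 := by
      rintro rfl
      exact hne (by simp)
    have hp0 : p ≠ 0 := hp.ne_zero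
    have h1 := ih ha (fun r hr hra => hpr r hr (Dvd.dvd.mul_left hra p))
    have h2 : ⌈A ^ (1 / θ)⌉₊ < p := hpr p hp (Dvd.intro a rfl)
    have h3 : A ^ (1 / θ) ≤ (p : ℝ) := by
      have h4 : A ^ (1 / θ) ≤ (⌈A ^ (1 / θ)⌉₊ : ℝ) := Nat.le_ceil _
      have h5 : ((⌈A ^ (1 / θ)⌉₊ : ℕ) : ℝ) ≤ p := by exact_mod_cast h2.le
      linarith
    have h4 : A ≤ (p : ℝ) ^ θ := by
      calc A = (A ^ (1 / θ)) ^ θ := by
            rw [← Real.rpow_mul hA0]
            rw [one_div, inv_mul_cancel₀ hθ.ne', Real.rpow_one]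
        _ ≤ (p : ℝ) ^ θ := Real.rpow_le_rpow (Real.rpow_nonneg hA0 _) h3 hθ.le
    rw [ArithmeticFunction.cardFactors_mul hp0 ha, ArithmeticFunction.cardFactors_apply_prime hp]
    rw [pow_add, pow_one]
    push_cast
    rw [Real.mul_rpow (Nat.cast_nonneg _) (Nat.cast_nonneg _)]
    exact mul_le_mul h4 h1 (pow_nonneg hA0 _) (Real.rpow_nonneg (Nat.cast_nonneg _) _)

end Pool.Agent.SU
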