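import Pool.Agent.helper40.SU.SpecA
import Pool.Agent.Lib.PrimeSums

set_option autoImplicit false

open Finset

namespace Pool.Agent.SU

theorem SMO (hRT1 : RT1_stmt) (hLIN : LIN_stmt) (hDCO : DCO_stmt) : SMO_stmt := by
  intro Z m q u₀ k₀ hZ hD
  refine ⟨⌈Real.exp 300⌉₊, ?_⟩
  intro K hK y hy
  have hKe : Real.exp 300 ≤ K := by
    have h1 : Real.exp 300 ≤ (⌈Real.exp 300⌉₊ : ℝ) := Nat.le_ceil _
    have h2 : ((⌈Real.exp 300⌉₊ : ℕ) : ℝ) ≤ K := by exact_mod_cast hK
    linarith
  have hK0 : (0 : ℝ) < K := lt_of_lt_of_le (Real.exp_pos _) hKe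
  have hlogK : 300 ≤ Real.log K := by
    rw [Real.le_log_iff_exp_le hK0]
    exact hKe
  have hK1 : 1 ≤ K := by exact_mod_cast hK0
  rcases Nat.lt_or_ge y 2 with hy2 | hy2
  · have hemp : (Px q u₀ k₀ K).filter (fun x => K < smp y (Df m x.1 x.2)) = ∅ := by
      apply Finset.filter_eq_empty_iff.mpr
      intro x _ h
      have h1 : smp y (Df m x.1 x.2) = 1 := by
        unfold smp
        apply Finset.prod_eq_one
        intro p hp
        rw [mem_filter] at hp
        have := (Nat.prime_of_mem_primeFactors hp.1).two_le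
        omega
      rw [h1] at h
      omega
    rw [hemp]
    simp only [card_empty, Nat.cast_zero]
    positivity
  set P := (Nat.primesLE y).filter (fun p => ¬ p ∣ 2 * q) with hP
  have hlogp : ∀ p ∈ P, 0 ≤ Real.log (p : ℝ) := by
    intro p hp
    rw [hP, mem_filter] at hp
    exact Real.log_natCast_nonneg p
  have hpt : ∀ x ∈ Px q u₀ k₀ K, Real.log (smp y (Df m x.1 x.2) : ℕ) ≤
      ∑ p ∈ P, (if p ∣ Df m x.1 x.2 then Real.log (p : ℝ) else 0) := by
    intro x hx
    have hxB : x ∈ Bx q u₀ k₀ K := by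
      unfold Px at hx
      exact (mem_filter.mp hx).1
    have hcop := ((hDCO Z m q u₀ k₀ K hD hK1).2 x hxB).2.2.1
    unfold smp
    push_cast
    rw [Real.log_prod]
    · rw [← Finset.sum_filter]
      apply Finset.sum_le_sum_of_subset_of_nonneg
      · intro p hp
        rw [mem_filter] at hp
        have hpp := Nat.prime_of_mem_primeFactors hp.1
        have hpd := Nat.dvd_of_mem_primeFactors hp.1
        rw [mem_filter, hP, mem_filter, Nat.mem_primesLE]
        refine ⟨⟨⟨hp.2, hpp⟩, ?_⟩, hpd⟩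
        intro h4
        have h5 := Nat.dvd_gcd hpd h4
        rw [Nat.Coprime] at hcop
        rw [hcop] at h5
        exact hpp.one_lt.ne' (Nat.dvd_one.mp h5)
      · intro p _ _
        exact Real.log_natCast_nonneg p
    · intro p hp
      rw [mem_filter] at hp
      have := (Nat.prime_of_mem_primeFactors hp.1).pos
      positivity
  have hcard : ∀ p ∈ P, (((Px q u₀ k₀ K).filter (fun x => p ∣ Df m x.1 x.2)).card : ℝ) ≤
      4 * ((K : ℝ) ^ 2 / p + K) := by
    intro p hp
    rw [hP, mem_filter, Nat.mem_primesLE] at hp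
    obtain ⟨⟨_, hpp⟩, hpq⟩ := hp
    have h1 := hLIN Z m q u₀ k₀ hZ hD K p hpp.one_le ((Nat.Prime.coprime_iff_not_dvd hpp).mpr hpq)
    have h2 := (hRT1 Z m q u₀ k₀ hZ hD p hpp hpq).1
    have h3 : (rt m p : ℝ) ≤ 4 := by exact_mod_cast h2
    refine le_trans h1 ?_
    exact mul_le_mul_of_nonneg_right h3 (by positivity)
  have hsum : ∑ x ∈ Px q u₀ k₀ K, ∑ p ∈ P, (if p ∣ Df m x.1 x.2 then Real.log (p : ℝ) else 0) ≤
      4 * (K : ℝ) ^ 2 * (Real.log y + Real.log 4) + 4 * K * (y : ℝ) ^ 2 := by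
    rw [Finset.sum_comm]
    have e1 : ∀ p ∈ P, ∑ x ∈ Px q u₀ k₀ K, (if p ∣ Df m x.1 x.2 then Real.log (p : ℝ) else 0) ≤
        4 * (K : ℝ) ^ 2 * (Real.log (p : ℝ) / p) + 4 * K * y := by
      intro p hp
      have hpy : p ≤ y := by
        rw [hP, mem_filter, Nat.mem_primesLE] at hp
        exact hp.1.1
      have hpp : p.Prime := by
        rw [hP, mem_filter, Nat.mem_primesLE] at hp
        exact hp.1.2
      rw [← Finset.sum_filter, Finset.sum_const, nsmul_eq_mul]
      refine le_trans (mul_le_mul_of_nonneg_right (hcard p hp) (hlogp p hp)) ?_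
      have h1 : Real.log (p : ℝ) ≤ y := by
        have h2 : Real.log (p : ℝ) ≤ p - 1 := Real.log_le_sub_one_of_pos (by exact_mod_cast hpp.pos)
        have h3 : (p : ℝ) ≤ y := by exact_mod_cast hpy
        linarith
      have h2 : 4 * ((K : ℝ) ^ 2 / p + K) * Real.log (p : ℝ) =
          4 * (K : ℝ) ^ 2 * (Real.log (p : ℝ) / p) + 4 * K * Real.log (p : ℝ) := by ring
      rw [h2]
      have h3 : 4 * (K : ℝ) * Real.log (p : ℝ) ≤ 4 * K * y := mul_le_mul_of_nonneg_left h1 (by positivity)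
      linarith
    refine le_trans (Finset.sum_le_sum e1) ?_
    rw [Finset.sum_add_distrib, ← Finset.mul_sum, Finset.sum_const, nsmul_eq_mul]
    have h1 : ∑ p ∈ P, Real.log (p : ℝ) / p ≤ Real.log y + Real.log 4 := by
      refine le_trans ?_ (Pool.Agent.Lib.PrimeSums.sum_log_div_le y (by omega))
      apply Finset.sum_le_sum_of_subset_of_nonneg
      · rw [hP]
        exact Finset.filter_subset _ _
      · intro p _ _
        exact div_nonneg (Real.log_natCast_nonneg p) (Nat.cast_nonneg _)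
    have h2 : (P.card : ℝ) ≤ y := by
      have h3 : P ⊆ Ioc 0 y := by
        intro p hp
        rw [hP, mem_filter, Nat.mem_primesLE] at hp
        rw [mem_Ioc]
        exact ⟨hp.1.2.pos, hp.1.1⟩
      have h4 := Finset.card_le_card h3
      rw [Nat.card_Ioc] at h4
      have h5 : P.card ≤ y := by omega
      exact_mod_cast h5
    have h3 : (P.card : ℝ) * (4 * K * y) ≤ y * (4 * K * y) := mul_le_mul_of_nonneg_right h2 (by positivity)
    have h4 : 4 * (K : ℝ) ^ 2 * ∑ p ∈ P, Real.log (p : ℝ) / p ≤ 4 * (K : ℝ) ^ 2 * (Real.log y + Real.log 4) :=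
      mul_le_mul_of_nonneg_left h1 (by positivity)
    have h5 : (y : ℝ) * (4 * K * y) = 4 * K * (y : ℝ) ^ 2 := by ring
    linarith
  set N := (Px q u₀ k₀ K).filter (fun x => K < smp y (Df m x.1 x.2)) with hN
  have hlow : (N.card : ℝ) * Real.log K ≤ ∑ x ∈ Px q u₀ k₀ K, ∑ p ∈ P, (if p ∣ Df m x.1 x.2 then Real.log (p : ℝ) else 0) := by
    have e1 : (N.card : ℝ) * Real.log K ≤ ∑ x ∈ N, ∑ p ∈ P, (if p ∣ Df m x.1 x.2 then Real.log (p : ℝ) else 0) := by
      rw [← nsmul_eq_mul, ← Finset.sum_const]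
      refine Finset.sum_le_sum ?_
      intro x hx
      rw [hN, mem_filter] at hx
      refine le_trans ?_ (hpt x hx.1)
      apply Real.log_le_log hK0
      exact_mod_cast hx.2.le
    refine le_trans e1 ?_
    apply Finset.sum_le_sum_of_subset_of_nonneg
    · rw [hN]
      exact Finset.filter_subset _ _
    · intro x _ _
      refine Finset.sum_nonneg ?_
      intro p hp
      split_ifs
      · exact hlogp p hp
      · exact le_refl 0
  -- numerics
  have hy0 : (0 : ℝ) < y := by
    have : 0 < y := by omega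
    exact_mod_cast this
  have hyK : (y : ℝ) ^ 20 ≤ K := by exact_mod_cast hy
  have hlogy : 20 * Real.log y ≤ Real.log K := by
    have h1 : Real.log ((y : ℝ) ^ 20) ≤ Real.log K := Real.log_le_log (by positivity) hyK
    rw [Real.log_pow] at h1
    push_cast at h1
    exact h1
  have hy2K : (y : ℝ) ^ 2 ≤ K := by
    refine le_trans ?_ hyK
    apply pow_le_pow_right₀
    · have : 1 ≤ y := by omega
      exact_mod_cast this
    · norm_num
  have hlog4 : Real.log 4 ≤ 2 := by
    have h1 : Real.log 4 ≤ 4 - 1 := Real.log_le_sub_one_of_pos (by norm_num)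
    have h2 : Real.log 4 = 2 * Real.log 2 := by
      rw [show (4 : ℝ) = 2 ^ 2 by norm_num, Real.log_pow]
      norm_num
    have h3 : Real.log 2 ≤ 2 - 1 := Real.log_le_sub_one_of_pos (by norm_num)
    linarith
  have hfin : 4 * (K : ℝ) ^ 2 * (Real.log y + Real.log 4) + 4 * K * (y : ℝ) ^ 2 ≤ (K : ℝ) ^ 2 / 4 * Real.log K := by
    have h1 : 4 * (K : ℝ) ^ 2 * (Real.log y + Real.log 4) ≤ 4 * (K : ℝ) ^ 2 * (Real.log K / 20 + 2) :=
      mul_le_mul_of_nonneg_left (by linarith) (by positivity)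
    have h2 : 4 * (K : ℝ) * (y : ℝ) ^ 2 ≤ 4 * K * K := mul_le_mul_of_nonneg_left hy2K (by positivity)
    have h3 : 0 ≤ (K : ℝ) ^ 2 * (Real.log K - 300) := mul_nonneg (by positivity) (by linarith)
    nlinarith [sq_nonneg (K : ℝ)]
  have hfin2 : (N.card : ℝ) * Real.log K ≤ (K : ℝ) ^ 2 / 4 * Real.log K := le_trans hlow (le_trans hsum hfin)
  exact le_of_mul_le_mul_right hfin2 (by linarith)

end Pool.Agent.SU
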